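import Pool.Agent.Lib.MP_361a6f_ag.FL.B.AbV

/-!
# Hard Lefschetz for all classes of degree two

Let `X` have a multiplication with a two-sided unit, and let `H^*(X)` be generated by `H^1(X)`, of
dimension `2 g`. Hard Lefschetz holds for every `ω` in `H^2(X)` with `Tr(ω^g) ≠ 0`.
-/

open CategoryTheory AlgebraicGeometry MonoidalCategory CartesianMonoidalCategory

universe u v w

set_option autoImplicit false
set_option linter.unusedSectionVars false

namespace Pool.Agent.Lib.MP_361a6f_ag.FL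

open Pool.Agent.Lib.MP_361a6f_ag.H3 Pool.Agent.Lib.MP_361a6f_ag.SQ
  Pool.Agent.Lib.MP_361a6f_ag.PP

namespace AM

variable {k : Type u} [Field k] {W : CohomologyData.{u, 0, w} k ℂ} {𝒱 : VarietyClass k}
  (hW : IsWeilCohomology W 𝒱) {X : Sch k} {g : ℕ} (hX : 𝒱.mem X g)

include hW hX in
theorem powGr {ω : W.coh X} (hω : ω ∈ W.gr X 2) (r : ℕ) : ω ^ r ∈ W.gr X (2 * r) := by
  induction r with
  | zero => rw [pow_zero]; exact hW.one_gr hX
  | succ r ih =>
    rw [pow_succ]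
    exact hW.mul_gr hX ih hω

omit hW hX in
theorem ne_zero {ω : W.coh X} (hne : W.tr X (ω ^ g) ≠ 0) : ω ^ g ≠ 0 := by
  intro h
  rw [h, map_zero] at hne
  exact hne rfl

include hW hX

section law

variable {m : X ⊗ X ⟶ X} (hm : ∀ v ∈ W.gr X 1, W.pull m v = W.pull (fst X X) v + W.pull (snd X X) v)
  (hA : AbelianType W X g) {ξ : W.coh X} (hξ : PositiveDivisor W X g ξ)
  {ω : W.coh X} (hω : ω ∈ W.gr X 2) (hne : W.tr X (ω ^ g) ≠ 0)

include hm hA hξ hω hne

theorem pow_gr (r : ℕ) : ω ^ r ∈ W.gr X (2 * r) := powGr hW hX hω r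

/-- `ω^(g-1)` is injective on `H^1` -/
theorem inj_one (hg : 0 < g) {y : W.coh X} (hy : y ∈ W.gr X 1) (h0 : ω ^ (g - 1) * y = 0) :
    y = 0 := by
  have hE := AV48.extAlg hW hX hA hξ
  have hωg := ne_zero hne
  have hω2 := hω
  have hc : ∀ (r : ℕ) (x : W.coh X), ω ^ r * x = x * ω ^ r := fun r x =>
    hW.even_comm hX (powGr hW hX hω r) x
  have hfin := hE.fin
  -- all functionals vanish at `y`
  have h1 : ∀ d : Module.Dual ℂ (W.gr X 1), d ⟨y, hy⟩ = 0 := by
    intro d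
    have e1 : hE.D d (y * ω ^ (g - 1)) = d ⟨y, hy⟩ • ω ^ (g - 1) - y * hE.D d (ω ^ (g - 1)) :=
      hE.D_mul d ⟨y, hy⟩ (ω ^ (g - 1))
    rw [← hc, h0, map_zero] at e1
    have e2 : ∀ r : ℕ, hE.D d (ω ^ (r + 1)) = ((r : ℂ) + 1) • (ω ^ r * hE.D d ω) := by
      intro r
      induction r with
      | zero => simp
      | succ r ih =>
        rw [pow_succ', hE.D_ξ_mul hω2, ih, mul_smul_comm, ← mul_assoc, ← pow_succ', hc (r + 1)]
        have : hE.D d ω * ω ^ (r + 1) = ω ^ (r + 1) * hE.D d ω := (hc _ _).symm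
        rw [this]
        push_cast
        module
    have e3 : ω * (y * hE.D d (ω ^ (g - 1))) = 0 := by
      rcases Nat.lt_or_ge 1 g with h2 | h2
      · obtain ⟨r, hr⟩ : ∃ r, g - 1 = r + 1 := ⟨g - 2, by omega⟩
        have e4 : ω ^ r * ω * y = 0 := by rw [← pow_succ, ← hr, h0]
        rw [hr, e2, mul_smul_comm, mul_smul_comm, ← mul_assoc, ← mul_assoc]
        have e5 : ω * y * ω ^ r = ω ^ r * ω * y := by
          rw [← hc r, mul_assoc]
        rw [e5, e4, zero_mul, smul_zero]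
      · obtain rfl : g = 1 := by omega
        rw [Nat.sub_self, pow_zero, hE.D_one, mul_zero, mul_zero]
    have e6 : d ⟨y, hy⟩ • ω ^ g = 0 := by
      have e7 := congrArg (fun x => ω * x) e1
      simp only [mul_zero, mul_sub, e3, sub_zero, mul_smul_comm] at e7
      rw [← pow_succ', Nat.sub_add_cancel hg] at e7
      exact e7.symm
    exact (smul_eq_zero.1 e6).resolve_right hωg
  have h2 := (Module.forall_dual_apply_eq_zero_iff ℂ (⟨y, hy⟩ : W.gr X 1)).1 h1
  exact congrArg Subtype.val h2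

/-- the contraction with `u ↦ Tr(ω^(g-1) v u)` maps `ω` to `-(Tr(ω^g)/g) v` -/
theorem con_ω (hg : 0 < g) {v : W.coh X} (hv : v ∈ W.gr X 1) :
    (g : ℂ) • (AV48.extAlg hW hX hA hξ).D (AbV.dl W X (ω ^ (g - 1) * v)) ω
      = -(W.tr X (ω ^ g) • v) := by
  have hE := AV48.extAlg hW hX hA hξ
  have hω2 := hω
  have hc : ∀ (r : ℕ) (x : W.coh X), ω ^ r * x = x * ω ^ r := fun r x =>
    hW.even_comm hX (powGr hW hX hω r) x
  set d := AbV.dl W X (ω ^ (g - 1) * v) with hd
  have e2 : ∀ r : ℕ, hE.D d (ω ^ (r + 1)) = ((r : ℂ) + 1) • (ω ^ r * hE.D d ω) := by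
    intro r
    induction r with
    | zero => simp
    | succ r ih =>
      rw [pow_succ', hE.D_ξ_mul hω2, ih, mul_smul_comm, ← mul_assoc, ← pow_succ', hc (r + 1)]
      have : hE.D d ω * ω ^ (r + 1) = ω ^ (r + 1) * hE.D d ω := (hc _ _).symm
      rw [this]
      push_cast
      module
  have hφ : hE.D d ω ∈ W.gr X 1 := (hE.D_gr d 2 ω hω2).2 1 rfl
  set φ := hE.D d ω with hφd
  have hs : (g : ℂ) • φ + W.tr X (ω ^ g) • v ∈ W.gr X 1 :=
    add_mem (Submodule.smul_mem _ _ hφ) (Submodule.smul_mem _ _ hv)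
  have h0 : ω ^ (g - 1) * ((g : ℂ) • φ + W.tr X (ω ^ g) • v) = 0 := by
    refine hW.duality hX _ fun u => ?_
    have hp := pow_gr hW hX hm hA hξ hω hne (g - 1)
    refine hW.hom_induction hX (P := fun u => W.tr X (ω ^ (g - 1)
      * ((g : ℂ) • φ + W.tr X (ω ^ g) • v) * u) = 0) u ?_ ?_ ?_
    · intro i u hu
      by_cases hi : i = 1
      · subst hi
        -- apply the contraction to `u ω^g = 0`
        have e3 : u * ω ^ g = 0 :=
          hW.top_gr hX (hW.mul_gr hX hu (pow_gr hW hX hm hA hξ hω hne g)) (by omega)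
        have e4 : hE.D d (u * ω ^ g) = d ⟨u, hu⟩ • ω ^ g - u * hE.D d (ω ^ g) :=
          hE.D_mul d ⟨u, hu⟩ (ω ^ g)
        have e5 : hE.D d (ω ^ g) = (g : ℂ) • (ω ^ (g - 1) * φ) := by
          have e9 := e2 (g - 1)
          rw [Nat.sub_add_cancel hg] at e9
          rw [e9]
          congr 1
          rw [Nat.cast_sub (show 1 ≤ g from hg)]
          push_cast
          ring
        rw [e3, map_zero, e5] at e4
        have e6 := congrArg (W.tr X) e4
        rw [map_zero, map_sub, map_smul, mul_smul_comm, map_smul, smul_eq_mul, smul_eq_mul] at e6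
        have e7 : d ⟨u, hu⟩ = W.tr X (ω ^ (g - 1) * v * u) := by rw [hd, AbV.dl_apply]
        have e8 : u * (ω ^ (g - 1) * φ) = -(ω ^ (g - 1) * φ * u) := by
          rw [← mul_assoc, ← hc, mul_assoc, mul_assoc, hW.comm_gr hX hu hφ]
          norm_num
        rw [e7, e8, map_neg] at e6
        rw [mul_add, mul_smul_comm, mul_smul_comm, add_mul, smul_mul_assoc, smul_mul_assoc,
          map_add, map_smul, map_smul, smul_eq_mul, smul_eq_mul]
        linear_combination -e6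
      · exact hW.tr_gr hX (hW.mul_gr hX (hW.mul_gr hX hp hs) hu) (by omega)
    · simp
    · intro a b ha hb
      rw [mul_add, map_add, ha, hb, add_zero]
  have h1 := inj_one hW hX hm hA hξ hω hne hg hs h0
  exact eq_neg_of_add_eq_zero_left h1

/-- the operator `C = C (ω^(g-1))` on products with elements of degree `1` -/
theorem C_v (hg : 0 < g) {v : W.coh X} (hv : v ∈ W.gr X 1) (w : W.coh X) :
    AbV.C W m (ω ^ (g - 1)) (v * w) = v * AbV.C W m (ω ^ (g - 1)) w
      + (AV48.extAlg hW hX hA hξ).D (AbV.dl W X (ω ^ (g - 1) * v)) w := by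
  have hp := pow_gr hW hX hm hA hξ hω hne (g - 1)
  rw [AbV.C_mul hW hX hm hp hv, pow_mul, neg_one_sq, one_pow, one_smul,
    AbV.C_con hW hX hm hA hξ (j := 2 * (g - 1) + 1) (by omega) (hW.mul_gr hX hp hv)]

theorem C_gr (hg : 0 < g) (i : ℕ) (x : W.coh X) (hx : x ∈ W.gr X i) :
    (i < 2 → AbV.C W m (ω ^ (g - 1)) x = 0) ∧
      (∀ j, i = j + 2 → AbV.C W m (ω ^ (g - 1)) x ∈ W.gr X j) ∧
      (i = 2 → AbV.C W m (ω ^ (g - 1)) x = W.tr X (ω ^ (g - 1) * x) • 1) := by
  have hE := AV48.extAlg hW hX hA hξ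
  have hp := pow_gr hW hX hm hA hξ hω hne (g - 1)
  refine hE.deg_ind (P := fun i x => (i < 2 → AbV.C W m (ω ^ (g - 1)) x = 0) ∧
      (∀ j, i = j + 2 → AbV.C W m (ω ^ (g - 1)) x ∈ W.gr X j) ∧
      (i = 2 → AbV.C W m (ω ^ (g - 1)) x = W.tr X (ω ^ (g - 1) * x) • 1)) ?_ ?_ ?_ ?_ i x hx
  · intro i
    rw [map_zero, mul_zero, map_zero, zero_smul]
    exact ⟨fun _ => rfl, fun _ _ => zero_mem _, fun _ => rfl⟩
  · intro i a b _ _ ha hb
    rw [map_add, mul_add, map_add, add_smul]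
    exact ⟨fun h => by rw [ha.1 h, hb.1 h, add_zero],
      fun j hj => add_mem (ha.2.1 j hj) (hb.2.1 j hj), fun h => by rw [ha.2.2 h, hb.2.2 h]⟩
  · intro c
    rw [map_smul, AbV.C_one hW hX, hW.tr_gr hX hp (by omega), zero_smul, smul_zero]
    exact ⟨fun _ => rfl, fun _ _ => zero_mem _, fun h => absurd h (by omega)⟩
  · intro i v hv a ha h
    rw [C_v hW hX hm hA hξ hω hne hg hv]
    have hD := hE.D_gr (AbV.dl W X (ω ^ (g - 1) * v)) i a ha
    refine ⟨fun hi => ?_, fun j hj => ?_, fun hi => ?_⟩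
    · obtain rfl : i = 0 := by omega
      rw [h.1 (by omega), mul_zero, zero_add]
      exact hD.1 rfl
    · obtain rfl : i = j + 1 := by omega
      refine add_mem ?_ (hD.2 j rfl)
      rcases Nat.eq_zero_or_pos j with hj0 | hj0
      · rw [h.1 (by omega), mul_zero]
        exact zero_mem _
      · obtain ⟨j', rfl⟩ : ∃ j', j = j' + 1 := ⟨j - 1, by omega⟩
        have := hW.mul_gr hX hv (h.2.1 j' rfl)
        rwa [add_comm] at this
    · obtain rfl : i = 1 := by omega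
      rw [h.1 (by omega), mul_zero, zero_add, ← mul_assoc]
      have e1 := hE.D_v (AbV.dl W X (ω ^ (g - 1) * v)) ⟨a, ha⟩
      rw [AbV.dl_apply] at e1
      exact e1

/-- the commutator of `C` and `ω` -/
theorem C_comm (hg : 0 < g) (i : ℕ) (x : W.coh X) (hx : x ∈ W.gr X i) :
    (g : ℂ) • (ω * AbV.C W m (ω ^ (g - 1)) x - AbV.C W m (ω ^ (g - 1)) (ω * x))
      = (W.tr X (ω ^ g) * ((i : ℂ) - g)) • x := by
  have hE := AV48.extAlg hW hX hA hξ
  have hω2 := hω
  have hc : ∀ x : W.coh X, ω * x = x * ω := fun x => hW.even_comm hX (j := 1) hω x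
  refine hE.deg_ind (P := fun i x => (g : ℂ) • (ω * AbV.C W m (ω ^ (g - 1)) x
    - AbV.C W m (ω ^ (g - 1)) (ω * x)) = (W.tr X (ω ^ g) * ((i : ℂ) - g)) • x) ?_ ?_ ?_ ?_ i x hx
  · intro i
    simp
  · intro i a b _ _ ha hb
    rw [map_add, mul_add, mul_add, map_add, smul_add, ← ha, ← hb, ← smul_add]
    congr 1
    abel
  · intro c
    have h1 := (C_gr hW hX hm hA hξ hω hne hg 0 1 (hW.one_gr hX)).1 (by omega)
    have h2 := (C_gr hW hX hm hA hξ hω hne hg 2 ω hω2).2.2 rfl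
    rw [← pow_succ, Nat.sub_add_cancel hg] at h2
    rw [map_smul, h1, smul_zero, mul_zero, zero_sub, mul_smul_comm, mul_one, map_smul, h2,
      smul_smul, ← neg_smul, smul_smul, smul_smul]
    congr 1
    push_cast
    ring
  · intro i v hv a _ h
    have e1 : ω * (v * a) = v * (ω * a) := by rw [← mul_assoc, hc v, mul_assoc]
    rw [e1, C_v hW hX hm hA hξ hω hne hg hv, C_v hW hX hm hA hξ hω hne hg hv, hE.D_ξ_mul hω2, mul_add,
      ← mul_assoc, hc v, mul_assoc]
    have e2 : v * (ω * AbV.C W m (ω ^ (g - 1)) a)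
        + ω * hE.D (AbV.dl W X (ω ^ (g - 1) * v)) a
        - (v * AbV.C W m (ω ^ (g - 1)) (ω * a) + (hE.D (AbV.dl W X (ω ^ (g - 1) * v)) ω * a
          + ω * hE.D (AbV.dl W X (ω ^ (g - 1) * v)) a))
        = v * (ω * AbV.C W m (ω ^ (g - 1)) a - AbV.C W m (ω ^ (g - 1)) (ω * a))
          - hE.D (AbV.dl W X (ω ^ (g - 1) * v)) ω * a := by
      rw [mul_sub]
      abel
    rw [e2, smul_sub, ← mul_smul_comm, h, ← smul_mul_assoc, con_ω hW hX hm hA hξ hω hne hg hv,
      neg_mul, sub_neg_eq_add, mul_smul_comm, smul_mul_assoc, ← add_smul]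
    congr 1
    push_cast
    ring

end law

/-- hard Lefschetz for all classes of degree two with a power that is not zero -/
theorem hardLefschetz (hA : AbelianType W X g) (hU : UnitalLaw X) {ξ : W.coh X}
    (hξ : PositiveDivisor W X g ξ) {ω : W.coh X} (hω : ω ∈ W.gr X 2)
    (hne : W.tr X (ω ^ g) ≠ 0) : HardLefschetz W X g ω := by
  have hXX := 𝒱.prod hX hX
  rcases Nat.eq_zero_or_pos g with hg | hg
  · subst hg
    intro i x hi _ h
    obtain rfl : i = 0 := by omega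
    rwa [CohomologyData.cup, Nat.sub_self, pow_zero, one_mul] at h
  obtain ⟨m, e, h1, h2⟩ := hU
  have h0 : ∀ x ∈ W.gr X 0, ∃ c : ℂ, x = c • 1 := fun x hx => AV48.zero_gr hW hX hA hξ hx
  have hm : ∀ v ∈ W.gr X 1, W.pull m v = W.pull (fst X X) v + W.pull (snd X X) v :=
    fun v hv => AbV.pull_m hW hX h0 h1 h2 hv
  have hg0 : (g : ℂ) ≠ 0 := by exact_mod_cast hg.ne'
  let r : ℂ := (g : ℂ) / W.tr X (ω ^ g)
  let Lam : Module.End ℂ (W.coh X) := r • AbV.C W m (ω ^ (g - 1))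
  have hS : Slm (W.gr X) g (Lop W X ω) Lam := by
    refine ⟨hW.internal hX, fun i x hx hi => hW.top_gr hX hx hi, fun i x hx => ?_,
      fun i x hx => ?_, fun i x hi hx => ?_, fun i x hx => ?_⟩
    · have := hW.mul_gr hX hω hx
      rwa [add_comm] at this
    · exact Submodule.smul_mem _ _ ((C_gr hW hX hm hA hξ hω hne hg _ x hx).2.1 i rfl)
    · show r • AbV.C W m (ω ^ (g - 1)) x = 0
      rw [(C_gr hW hX hm hA hξ hω hne hg i x hx).1 hi, smul_zero]
    · show ω * (r • AbV.C W m (ω ^ (g - 1)) x) - r • AbV.C W m (ω ^ (g - 1)) (ω * x) = _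
      have h3 := C_comm hW hX hm hA hξ hω hne hg i x hx
      rw [mul_smul_comm, ← smul_sub]
      have h4 : ω * AbV.C W m (ω ^ (g - 1)) x - AbV.C W m (ω ^ (g - 1)) (ω * x)
          = (g : ℂ)⁻¹ • ((W.tr X (ω ^ g) * ((i : ℂ) - g)) • x) := by
        rw [← h3, smul_smul, inv_mul_cancel₀ hg0, one_smul]
      rw [h4, smul_smul, smul_smul]
      congr 1
      show (g : ℂ) / W.tr X (ω ^ g) * (g : ℂ)⁻¹ * (W.tr X (ω ^ g) * ((i : ℂ) - g)) = _
      field_simp
  intro i x hi hx h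
  refine SL2.inj hS i x hi hx ?_
  rw [PSI.Lop_pow hW hX]
  exact h

end AM

end Pool.Agent.Lib.MP_361a6f_ag.FL
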