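import Pool.Agent.Lib.MP_361a6f_ag.FL.AM.Sig

/-!
# Hard Lefschetz, signatures and the Hodge-Riemann relations: linear algebra
-/

set_option autoImplicit false
set_option linter.unusedSectionVars false

namespace Pool.Agent.Lib.MP_361a6f_ag.FL.AM

open Module

variable {R : Type*} [Ring R] [Algebra ℝ R]

/-- A graded algebra with a trace and Poincare duality. -/
structure Pd (A : ℕ → Submodule ℝ R) (T : R →ₗ[ℝ] ℝ) (N : ℕ) : Prop where
  mul : ∀ {i j x y}, x ∈ A i → y ∈ A j → x * y ∈ A (i + j)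
  comm : ∀ {i j x y}, x ∈ A i → y ∈ A j → x * y = y * x
  top : ∀ x ∈ A (N + 1), x = 0
  dual : ∀ {i j x}, i + j = N → x ∈ A i → (∀ y ∈ A j, T (x * y) = 0) → x = 0
  fin : ∀ j, Module.Finite ℝ (A j)

/-- hard Lefschetz: injectivity -/
def HL (A : ℕ → Submodule ℝ R) (N : ℕ) (w : R) : Prop :=
  ∀ j n x, 2 * j + n = N → x ∈ A j → w ^ n * x = 0 → x = 0

/-- the Hodge-Riemann relations -/
def HR (A : ℕ → Submodule ℝ R) (T : R →ₗ[ℝ] ℝ) (N : ℕ) (w : R) : Prop :=
  ∀ j n x, 2 * j + n = N → x ∈ A j → w ^ (n + 1) * x = 0 → x ≠ 0 →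
    0 < (-1) ^ j * T (w ^ n * (x * x))

/-- the form `(-1)^j T(w^n x y)` on `A^j` -/
noncomputable def Bf (A : ℕ → Submodule ℝ R) (T : R →ₗ[ℝ] ℝ) (w : R) (j n : ℕ) :
    LinearMap.BilinForm ℝ (A j) :=
  LinearMap.mk₂ ℝ (fun x y : A j => (-1) ^ j * T (w ^ n * ((x : R) * (y : R))))
    (fun x x' y => by simp only [Submodule.coe_add, add_mul, mul_add, map_add])
    (fun c x y => by
      simp only [Submodule.coe_smul, smul_mul_assoc, mul_smul_comm, map_smul, smul_eq_mul]
      ring)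
    (fun x y y' => by simp only [Submodule.coe_add, mul_add, map_add])
    (fun c x y => by
      simp only [Submodule.coe_smul, mul_smul_comm, map_smul, smul_eq_mul]
      ring)

theorem Bf_apply (A : ℕ → Submodule ℝ R) (T : R →ₗ[ℝ] ℝ) (w : R) (j n : ℕ) (x y : A j) :
    Bf A T w j n x y = (-1) ^ j * T (w ^ n * ((x : R) * (y : R))) := rfl

theorem Bf_add (A : ℕ → Submodule ℝ R) (T : R →ₗ[ℝ] ℝ) (w : R) (j n : ℕ) (x y : A j) :
    Bf A T w j n (x + y) (x + y)
      = Bf A T w j n x x + Bf A T w j n x y + (Bf A T w j n y x + Bf A T w j n y y) := by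
  simp only [map_add, LinearMap.add_apply]
  ring

theorem Bf_smul (A : ℕ → Submodule ℝ R) (T : R →ₗ[ℝ] ℝ) (w : R) (j n : ℕ) (c : ℝ) (x : A j) :
    Bf A T w j n (c • x) (c • x) = c * c * Bf A T w j n x x := by
  simp only [map_smul, LinearMap.smul_apply, smul_eq_mul]
  ring

theorem Bf_zero (A : ℕ → Submodule ℝ R) (T : R →ₗ[ℝ] ℝ) (w : R) (j n : ℕ) :
    Bf A T w j n 0 0 = 0 := map_zero _

/-- the expected signatures -/
def sgn (a : ℕ → ℕ) : ℕ → ℕ × ℕ
  | 0 => (a 0, 0)
  | j + 1 => ((sgn a j).2 + (a (j + 1) - a j), (sgn a j).1)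

namespace Pd

variable {A : ℕ → Submodule ℝ R} {T : R →ₗ[ℝ] ℝ} {N : ℕ} (h : Pd A T N)

include h

theorem pow {w : R} (hw : w ∈ A 1) {j : ℕ} {x : R} (hx : x ∈ A j) (n : ℕ) :
    w ^ n * x ∈ A (n + j) := by
  induction n with
  | zero => rwa [pow_zero, one_mul, Nat.zero_add]
  | succ n ih =>
    rw [pow_succ', mul_assoc]
    have := h.mul hw ih
    rwa [show 1 + (n + j) = n + 1 + j by omega] at this

theorem pow_comm {w : R} (hw : w ∈ A 1) {j : ℕ} {x : R} (hx : x ∈ A j) (n : ℕ) :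
    w ^ n * x = x * w ^ n := by
  induction n with
  | zero => rw [pow_zero, one_mul, mul_one]
  | succ n ih => rw [pow_succ, mul_assoc, h.comm hw hx, ← mul_assoc, ih, mul_assoc]

/-- the dimensions of `A^i` and `A^(N-i)` agree -/
theorem finrank_le {i j : ℕ} (hij : i + j = N) : finrank ℝ (A i) ≤ finrank ℝ (A j) := by
  have := h.fin i
  have := h.fin j
  let P : A i →ₗ[ℝ] Module.Dual ℝ (A j) := LinearMap.mk₂ ℝ (fun x y => T ((x : R) * (y : R)))
    (fun x x' y => by simp only [Submodule.coe_add, add_mul, map_add])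
    (fun c x y => by simp only [Submodule.coe_smul, smul_mul_assoc, map_smul])
    (fun x y y' => by simp only [Submodule.coe_add, mul_add, map_add])
    (fun c x y => by simp only [Submodule.coe_smul, mul_smul_comm, map_smul])
  have hP : Function.Injective P := by
    rw [injective_iff_map_eq_zero]
    intro x hx
    have h1 : (x : R) = 0 := h.dual hij x.2 fun y hy => LinearMap.congr_fun hx ⟨y, hy⟩
    exact Subtype.ext h1
  have h2 := LinearMap.finrank_le_finrank_of_injective hP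
  rwa [Subspace.dual_finrank_eq] at h2

theorem finrank_eq {i j : ℕ} (hij : i + j = N) : finrank ℝ (A i) = finrank ℝ (A j) :=
  le_antisymm (h.finrank_le hij) (h.finrank_le (by omega))

section

variable {w : R} (hw : w ∈ A 1) (hL : HL A N w)

include hw hL

/-- hard Lefschetz: surjectivity -/
theorem surj {j n : ℕ} (hn : 2 * j + n = N) {z : R} (hz : z ∈ A (n + j)) :
    ∃ y ∈ A j, w ^ n * y = z := by
  have := h.fin j
  have := h.fin (n + j)
  let m : A j →ₗ[ℝ] A (n + j) :=
    { toFun := fun x => ⟨w ^ n * (x : R), h.pow hw x.2 n⟩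
      map_add' := fun x y => Subtype.ext (by simp only [Submodule.coe_add, mul_add])
      map_smul' := fun c x => Subtype.ext (by
        simp only [Submodule.coe_smul, mul_smul_comm, RingHom.id_apply]) }
  have hm : Function.Injective m := by
    rw [injective_iff_map_eq_zero]
    intro x hx
    exact Subtype.ext (hL j n _ hn x.2 (congrArg Subtype.val hx))
  have h1 : finrank ℝ (A j) = finrank ℝ (A (n + j)) := h.finrank_eq (by omega)
  obtain ⟨y, hy⟩ := (LinearMap.injective_iff_surjective_of_finrank_eq_finrank h1).1 hm ⟨z, hz⟩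
  exact ⟨y, y.2, congrArg Subtype.val hy⟩

/-- the Lefschetz decomposition -/
theorem decomp {j n : ℕ} (hn : 2 * (j + 1) + n = N) {x : R} (hx : x ∈ A (j + 1)) :
    ∃ y ∈ A j, w ^ (n + 1) * (x - w * y) = 0 := by
  have h1 := h.pow hw hx (n + 1)
  rw [show n + 1 + (j + 1) = n + 2 + j by omega] at h1
  obtain ⟨y, hy, h2⟩ := h.surj hw hL (j := j) (n := n + 2) (by omega) h1
  refine ⟨y, hy, ?_⟩
  rw [mul_sub, ← mul_assoc, ← pow_succ, h2, sub_self]

end

/-! ### The signatures -/

theorem Bf_symm (w : R) (j n : ℕ) (x y : A j) : Bf A T w j n x y = Bf A T w j n y x := by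
  rw [Bf_apply, Bf_apply, h.comm x.2 y.2]

/-- multiplication by `w` -/
def mW {w : R} (hw : w ∈ A 1) (j : ℕ) : A j →ₗ[ℝ] A (j + 1) where
  toFun x := ⟨w * (x : R), by
    have := h.mul hw x.2
    rwa [Nat.add_comm] at this⟩
  map_add' x y := Subtype.ext (by simp only [Submodule.coe_add, mul_add])
  map_smul' c x := Subtype.ext (by
    simp only [Submodule.coe_smul, mul_smul_comm, RingHom.id_apply])

omit h in
/-- the primitive classes -/
def Pr (A : ℕ → Submodule ℝ R) (w : R) (j n : ℕ) : Submodule ℝ (A j) :=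
  LinearMap.ker ((LinearMap.mulLeft ℝ (w ^ (n + 1))).comp (A j).subtype)

omit h in
theorem mem_Pr {w : R} {j n : ℕ} {x : A j} : x ∈ Pr A w j n ↔ w ^ (n + 1) * (x : R) = 0 :=
  Iff.rfl

section

variable {w : R} (hw : w ∈ A 1)

theorem mW_coe {j : ℕ} (x : A j) : ((h.mW hw j x : A (j + 1)) : R) = w * (x : R) := rfl

include hw in
theorem Bf_mW {j n : ℕ} (x y : A j) :
    Bf A T w (j + 1) n (h.mW hw j x) (h.mW hw j y) = - Bf A T w j (n + 2) x y := by
  rw [Bf_apply, Bf_apply, mW_coe, mW_coe]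
  have h1 : w ^ n * (w * (x : R) * (w * (y : R))) = w ^ (n + 2) * ((x : R) * (y : R)) := by
    have h2 : (x : R) * w = w * (x : R) := h.comm x.2 hw
    calc w ^ n * (w * (x : R) * (w * (y : R))) = w ^ n * (w * ((x : R) * w) * (y : R)) := by
          simp only [mul_assoc]
      _ = w ^ n * w * w * ((x : R) * (y : R)) := by
          rw [h2]
          simp only [mul_assoc]
      _ = _ := by rw [pow_succ, pow_succ]
  rw [h1, pow_succ]
  ring

theorem Bf_Pr {j n : ℕ} {x : A (j + 1)} (hx : x ∈ Pr A w (j + 1) n) (y : A j) :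
    Bf A T w (j + 1) n x (h.mW hw j y) = 0 := by
  rw [Bf_apply, mW_coe]
  have h2 : (x : R) * w = w * (x : R) := h.comm x.2 hw
  have h1 : w ^ n * ((x : R) * (w * (y : R))) = w ^ (n + 1) * (x : R) * (y : R) := by
    calc w ^ n * ((x : R) * (w * (y : R))) = w ^ n * ((x : R) * w) * (y : R) := by
          simp only [mul_assoc]
      _ = _ := by
          rw [h2, pow_succ]
          simp only [mul_assoc]
  rw [h1, mem_Pr.1 hx, zero_mul, map_zero, mul_zero]

variable (hL : HL A N w)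

include hL in
theorem mW_inj {j n : ℕ} (hn : 2 * (j + 1) + n = N) : Function.Injective (h.mW hw j) := by
  rw [injective_iff_map_eq_zero]
  intro x hx
  have h1 : w * (x : R) = 0 := congrArg Subtype.val hx
  refine Subtype.ext (hL j (n + 2) _ (by omega) x.2 ?_)
  rw [pow_succ, mul_assoc, h1, mul_zero]

include hL in
theorem isCompl {j n : ℕ} (hn : 2 * (j + 1) + n = N) :
    IsCompl (Pr A w (j + 1) n) (LinearMap.range (h.mW hw j)) := by
  refine IsCompl.of_eq ?_ ?_
  · rw [Submodule.eq_bot_iff]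
    rintro _ ⟨h1, y, rfl⟩
    have h2 : w ^ (n + 1) * (w * (y : R)) = 0 := h1
    rw [← mul_assoc, ← pow_succ] at h2
    have h3 : y = 0 := Subtype.ext (hL j (n + 2) _ (by omega) y.2 h2)
    rw [h3, map_zero]
  · rw [Submodule.eq_top_iff']
    intro x
    obtain ⟨y, hy, h1⟩ := h.decomp hw hL hn x.2
    have h2 : x = (x - h.mW hw j ⟨y, hy⟩) + h.mW hw j ⟨y, hy⟩ := (sub_add_cancel _ _).symm
    rw [h2]
    exact Submodule.add_mem_sup (mem_Pr.2 h1) ⟨_, rfl⟩

include hw hL in
theorem finrank_Pr {j n : ℕ} (hn : 2 * (j + 1) + n = N) :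
    finrank ℝ (Pr A w (j + 1) n) + finrank ℝ (A j) = finrank ℝ (A (j + 1)) := by
  have := h.fin j
  have := h.fin (j + 1)
  have h1 := Submodule.finrank_add_eq_of_isCompl (h.isCompl hw hL hn)
  rwa [LinearMap.finrank_range_of_inj (h.mW_inj hw hL hn)] at h1

include hw hL in
theorem finrank_map {j n : ℕ} (hn : 2 * (j + 1) + n = N) (S : Submodule ℝ (A j)) :
    finrank ℝ (S.map (h.mW hw j)) = finrank ℝ S :=
  (Submodule.equivMapOfInjective _ (h.mW_inj hw hL hn) S).finrank_eq.symm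

include hw hL in
/-- the signature in degree `j + 1` -/
theorem sg_succ (hR : HR A T N w) {j n : ℕ} (hn : 2 * (j + 1) + n = N) {p m : ℕ}
    (hs : Sg (Bf A T w j (n + 2)) p m) :
    Sg (Bf A T w (j + 1) n) (m + (finrank ℝ (A (j + 1)) - finrank ℝ (A j))) p := by
  have := h.fin j
  have := h.fin (j + 1)
  obtain ⟨⟨S, hS, hSp⟩, S', hS', hSn⟩ := hs
  have hc := h.isCompl hw hL hn
  refine ⟨⟨Pr A w (j + 1) n ⊔ S'.map (h.mW hw j), ?_, ?_⟩, S.map (h.mW hw j), ?_, ?_⟩
  · have h1 := Submodule.finrank_sup_add_finrank_inf_eq (Pr A w (j + 1) n) (S'.map (h.mW hw j))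
    have h2 : Pr A w (j + 1) n ⊓ S'.map (h.mW hw j) = ⊥ := by
      rw [eq_bot_iff, ← hc.inf_eq_bot]
      exact inf_le_inf_left _ (LinearMap.map_le_range)
    rw [h2, finrank_bot, h.finrank_map hw hL hn, hS'] at h1
    have h3 := h.finrank_Pr hw hL hn
    omega
  · intro x hx hx0
    obtain ⟨y, hy, _, ⟨s, hs, rfl⟩, rfl⟩ := Submodule.mem_sup.1 hx
    have e : Bf A T w (j + 1) n (y + h.mW hw j s) (y + h.mW hw j s)
        = Bf A T w (j + 1) n y y - Bf A T w j (n + 2) s s := by
      rw [Bf_add, h.Bf_symm w _ _ (h.mW hw j s) y, h.Bf_Pr hw hy, h.Bf_mW hw]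
      ring
    rw [e]
    by_cases hs0 : s = 0
    · have hy0 : y ≠ 0 := by
        rintro rfl
        exact hx0 (by rw [hs0, map_zero, add_zero])
      have h4 : 0 < Bf A T w (j + 1) n y y :=
        hR (j + 1) n y hn y.2 (mem_Pr.1 hy) fun h5 => hy0 (Subtype.ext h5)
      rw [hs0, Bf_zero, sub_zero]
      exact h4
    · have h3 := hSn s hs hs0
      have h4 : 0 ≤ Bf A T w (j + 1) n y y := by
        by_cases hy0 : y = 0
        · rw [hy0, Bf_zero]
        · exact (hR (j + 1) n y hn y.2 (mem_Pr.1 hy) fun h5 => hy0 (Subtype.ext h5)).le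
      linarith
  · rw [h.finrank_map hw hL hn, hS]
  · rintro _ ⟨s, hs, rfl⟩ hx0
    have hs0 : s ≠ 0 := by
      rintro rfl
      exact hx0 (map_zero _)
    rw [h.Bf_mW hw]
    have := hSp s hs hs0
    linarith

/-- the signatures, from the Hodge-Riemann relations -/
theorem sg_of_hr (hw : w ∈ A 1) (hL : HL A N w) (hR : HR A T N w) (j : ℕ) : ∀ n, 2 * j + n = N →
    Sg (Bf A T w j n) (sgn (fun i => finrank ℝ (A i)) j).1
      (sgn (fun i => finrank ℝ (A i)) j).2 := by
  induction j with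
  | zero =>
    intro n hn
    have hnN : n = N := by omega
    subst hnN
    refine ⟨⟨⊤, finrank_top ℝ _, fun x _ hx => ?_⟩, ⊥, finrank_bot ℝ _, fun x hx hx0 => ?_⟩
    · exact hR 0 n x hn x.2 (h.top _ (h.pow hw x.2 (n + 1))) fun h1 => hx (Subtype.ext h1)
    · exact absurd ((Submodule.mem_bot ℝ).1 hx) hx0
  | succ j ih =>
    intro n hn
    exact h.sg_succ hw hL hR hn (ih (n + 2) (by omega))

/-- the sum of the two numbers is the dimension -/
theorem sgn_add (hw : w ∈ A 1) (hL : HL A N w) (j : ℕ) : ∀ n, 2 * j + n = N →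
    (sgn (fun i => finrank ℝ (A i)) j).1 + (sgn (fun i => finrank ℝ (A i)) j).2
      = finrank ℝ (A j) := by
  induction j with
  | zero => exact fun n _ => Nat.add_zero _
  | succ j ih =>
    intro n hn
    have h1 := ih (n + 2) (by omega)
    have h2 := h.finrank_Pr hw hL hn
    show (sgn (fun i => finrank ℝ (A i)) j).2 + (finrank ℝ (A (j + 1)) - finrank ℝ (A j))
      + (sgn (fun i => finrank ℝ (A i)) j).1 = finrank ℝ (A (j + 1))
    omega

/-- the Hodge-Riemann relations, from the signatures -/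
theorem hr_of_sg (hw : w ∈ A 1) (hL : HL A N w)
    (hs : ∀ j n, 2 * j + n = N → Sg (Bf A T w j n) (sgn (fun i => finrank ℝ (A i)) j).1
      (sgn (fun i => finrank ℝ (A i)) j).2) : HR A T N w := by
  intro j n x hn hx hp hx0
  have hfj := h.fin j
  obtain ⟨⟨S, hS, hSp⟩, -⟩ := hs j n hn
  by_contra hcon
  have hcon' : Bf A T w j n ⟨x, hx⟩ ⟨x, hx⟩ ≤ 0 := not_lt.1 hcon
  -- a subspace of dimension one more than the negative one, on which the form is not positive
  obtain ⟨U, hU, hUn⟩ : ∃ U : Submodule ℝ (A j),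
      finrank ℝ U = (sgn (fun i => finrank ℝ (A i)) j).2 + 1 ∧
        ∀ y ∈ U, Bf A T w j n y y ≤ 0 := by
    rcases j with _ | j
    · refine ⟨ℝ ∙ ⟨x, hx⟩, ?_, ?_⟩
      · rw [finrank_span_singleton fun h1 => hx0 (congrArg Subtype.val h1)]
        rfl
      · intro y hy
        obtain ⟨c, rfl⟩ := Submodule.mem_span_singleton.1 hy
        rw [Bf_smul]
        exact mul_nonpos_of_nonneg_of_nonpos (mul_self_nonneg c) hcon'
    · have := h.fin j
      obtain ⟨⟨S', hS', hSp'⟩, -⟩ := hs j (n + 2) (by omega)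
      have hpr : (⟨x, hx⟩ : A (j + 1)) ∈ Pr A w (j + 1) n := mem_Pr.2 hp
      refine ⟨(ℝ ∙ ⟨x, hx⟩) ⊔ S'.map (h.mW hw j), ?_, ?_⟩
      · have h1 := Submodule.finrank_sup_add_finrank_inf_eq (ℝ ∙ (⟨x, hx⟩ : A (j + 1)))
          (S'.map (h.mW hw j))
        have h2 : (ℝ ∙ (⟨x, hx⟩ : A (j + 1))) ⊓ S'.map (h.mW hw j) = ⊥ := by
          rw [eq_bot_iff, ← (h.isCompl hw hL hn).inf_eq_bot]
          exact inf_le_inf ((Submodule.span_singleton_le_iff_mem _ _).2 hpr)
            (LinearMap.map_le_range)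
        rw [h2, finrank_bot, h.finrank_map hw hL hn, hS',
          finrank_span_singleton fun h1 => hx0 (congrArg Subtype.val h1)] at h1
        show _ = (sgn (fun i => finrank ℝ (A i)) j).1 + 1
        omega
      · intro y hy
        obtain ⟨a, ha, _, ⟨s, hs, rfl⟩, rfl⟩ := Submodule.mem_sup.1 hy
        obtain ⟨c, rfl⟩ := Submodule.mem_span_singleton.1 ha
        have hpr' : c • (⟨x, hx⟩ : A (j + 1)) ∈ Pr A w (j + 1) n := Submodule.smul_mem _ c hpr
        have e : Bf A T w (j + 1) n (c • ⟨x, hx⟩ + h.mW hw j s) (c • ⟨x, hx⟩ + h.mW hw j s)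
            = c * c * Bf A T w (j + 1) n ⟨x, hx⟩ ⟨x, hx⟩ - Bf A T w j (n + 2) s s := by
          rw [Bf_add, h.Bf_symm w _ _ (h.mW hw j s), h.Bf_Pr hw hpr', h.Bf_mW hw, Bf_smul]
          ring
        rw [e]
        have h5 : c * c * Bf A T w (j + 1) n ⟨x, hx⟩ ⟨x, hx⟩ ≤ 0 :=
          mul_nonpos_of_nonneg_of_nonpos (mul_self_nonneg c) hcon'
        have h6 : 0 ≤ Bf A T w j (n + 2) s s := by
          by_cases hs0 : s = 0
          · rw [hs0, Bf_zero]
          · exact (hSp' s hs hs0).le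
        linarith
  have h1 := Submodule.finrank_sup_add_finrank_inf_eq S U
  have h2 := Submodule.finrank_le (S ⊔ U)
  have h3 := h.sgn_add hw hL j n hn
  have h4 : 0 < finrank ℝ (S ⊓ U : Submodule ℝ (A j)) := by omega
  obtain ⟨y, hy, hy0⟩ := Submodule.exists_mem_ne_zero_of_ne_bot
    (p := (S ⊓ U : Submodule ℝ (A j))) (by
      intro h5
      rw [h5, finrank_bot] at h4
      exact lt_irrefl _ h4)
  exact absurd (hSp y hy.1 hy0) (not_lt.2 (hUn y hy.2))

end

/-! ### The path -/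

omit h in
/-- the point `t` of the path -/
def pt (η L : R) (t : ℝ) : R := (1 - t) • η + t • L

omit h in
theorem cont (S : R →ₗ[ℝ] ℝ) (η L : R) (n : ℕ) : ∀ z : R,
    Continuous fun t : ℝ => S (pt η L t ^ n * z) := by
  induction n with
  | zero =>
    intro z
    simp only [pow_zero, one_mul]
    exact continuous_const
  | succ n ih =>
    intro z
    have e : (fun t : ℝ => S (pt η L t ^ (n + 1) * z))
        = fun t : ℝ => (1 - t) * S (pt η L t ^ n * (η * z)) + t * S (pt η L t ^ n * (L * z)) := by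
      funext t
      rw [pow_succ, mul_assoc]
      have h1 : pt η L t * z = (1 - t) • (η * z) + t • (L * z) := by
        rw [pt, add_mul, smul_mul_assoc, smul_mul_assoc]
      rw [h1, mul_add, mul_smul_comm, mul_smul_comm, map_add, map_smul, map_smul, smul_eq_mul,
        smul_eq_mul]
    rw [e]
    exact ((continuous_const.sub continuous_id).mul (ih (η * z))).add
      (continuous_id.mul (ih (L * z)))

/-- **The Hodge-Riemann relations along a path.** -/
theorem hr_of_path {η L : R} (hη : η ∈ A 1) (hL : L ∈ A 1)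
    (hl : ∀ t ∈ Set.Icc (0 : ℝ) 1, HL A N (pt η L t)) (hr : HR A T N η) : HR A T N L := by
  have e0 : pt η L 0 = η := by rw [pt, sub_zero, one_smul, zero_smul, add_zero]
  have e1 : pt η L 1 = L := by rw [pt, sub_self, zero_smul, one_smul, zero_add]
  have hl0 := hl 0 ⟨le_rfl, zero_le_one⟩
  have hl1 := hl 1 ⟨zero_le_one, le_rfl⟩
  rw [e0] at hl0
  rw [e1] at hl1
  have hpt : ∀ t, pt η L t ∈ A 1 := fun t =>
    Submodule.add_mem _ (Submodule.smul_mem _ _ hη) (Submodule.smul_mem _ _ hL)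
  refine h.hr_of_sg hL hl1 fun j n hn => ?_
  have hfin := h.fin j
  have h1 := sig_const (fun t => Bf A T (pt η L t) j n) (fun t x y => h.Bf_symm _ _ _ x y)
    (fun x y => by
      have h2 := cont ((-1 : ℝ) ^ j • T) η L n ((x : R) * (y : R))
      exact h2)
    (fun t ht x hx => by
      have h3 : pt η L t ^ n * (x : R) = 0 := by
        refine h.dual (i := n + j) (j := j) (by omega) (h.pow (hpt t) x.2 n) fun y hy => ?_
        have h4 := hx ⟨y, hy⟩
        rw [Bf_apply, ← mul_assoc] at h4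
        exact (mul_eq_zero.1 h4).resolve_left (pow_ne_zero _ (by norm_num))
      exact Subtype.ext (hl t ht j n _ hn x.2 h3))
    (h.sgn_add hη hl0 j n hn) (by
      show Sg (Bf A T (pt η L 0) j n) _ _
      rw [e0]
      exact h.sg_of_hr hη hl0 hr j n hn)
  have h5 : Sg (Bf A T (pt η L 1) j n) _ _ := h1
  rwa [e1] at h5

end Pd

end Pool.Agent.Lib.MP_361a6f_ag.FL.AM
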