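import Pool.Agent.Lib.MP_361a6f_ag.FL.AM.Rtl
import Pool.Agent.Lib.MP_361a6f_ag.FL.E.StatE
import Pool.Agent.Lib.MP_361a6f_ag.H3.Basic

/-!
# `Q1` for all classes that can be joined to one class by a path of classes with hard Lefschetz
-/

open CategoryTheory AlgebraicGeometry MonoidalCategory CartesianMonoidalCategory

universe u v w

set_option autoImplicit false
set_option linter.unusedSectionVars false

namespace Pool.Agent.Lib.MP_361a6f_ag.FL.AM

open Pool.Agent.Lib.MP_361a6f_ag.H3 Pool.Agent.Lib.MP_361a6f_ag.SQ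

variable {k : Type u} [Field k] {W : CohomologyData.{u, 0, w} k ℂ} {𝒱 : VarietyClass k}

/-- the real span of the algebraic classes -/
def Ar (W : CohomologyData.{u, 0, w} k ℂ) (Y : Sch k) (j : ℕ) : Submodule ℝ (W.coh Y) :=
  Submodule.span ℝ (W.alg Y j : Set (W.coh Y))

/-- the real part of the trace -/
noncomputable def Tre (W : CohomologyData.{u, 0, w} k ℂ) (Y : Sch k) : W.coh Y →ₗ[ℝ] ℝ :=
  Complex.reLm ∘ₗ (W.tr Y).restrictScalars ℝ

theorem Tre_apply (Y : Sch k) (x : W.coh Y) : Tre W Y x = (W.tr Y x).re := rfl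

variable (hW : IsWeilCohomology W 𝒱) {Y : Sch k} {N : ℕ} (hY : 𝒱.mem Y N)

include hW hY

theorem Ar_gr {j : ℕ} {x : W.coh Y} (hx : x ∈ Ar W Y j) : x ∈ W.gr Y (2 * j) := by
  have h1 : Ar W Y j ≤ (W.gr Y (2 * j)).restrictScalars ℝ :=
    Submodule.span_le.2 fun y hy => hW.alg_gr hY hy
  exact h1 hx

theorem tr_real {z : W.coh Y} (hz : z ∈ Ar W Y N) : W.tr Y z = ((Tre W Y z : ℝ) : ℂ) := by
  induction hz using Submodule.span_induction with
  | mem z hz =>
    obtain ⟨q, hq⟩ := hW.tr_alg hY hz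
    rw [Tre_apply, hq]
    simp
  | zero => rw [map_zero, map_zero, Complex.ofReal_zero]
  | add x y _ _ hx hy => rw [map_add, hx, hy, map_add, Complex.ofReal_add]
  | smul c x _ hx =>
    have e : (c • x : W.coh Y) = (c : ℂ) • x := rfl
    rw [e, map_smul, hx, ← e, map_smul, smul_eq_mul, smul_eq_mul, Complex.ofReal_mul]

theorem Ar_mul {i j : ℕ} {x y : W.coh Y} (hx : x ∈ Ar W Y i) (hy : y ∈ Ar W Y j) :
    x * y ∈ Ar W Y (i + j) := by
  induction hx using Submodule.span_induction with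
  | mem x hx =>
    induction hy using Submodule.span_induction with
    | mem y hy => exact Submodule.subset_span (hW.mul_alg hY hx hy)
    | zero => rw [mul_zero]; exact zero_mem _
    | add y y' _ _ h h' => rw [mul_add]; exact add_mem h h'
    | smul c y _ h => rw [mul_smul_comm]; exact Submodule.smul_mem _ _ h
  | zero => rw [zero_mul]; exact zero_mem _
  | add x x' _ _ h h' => rw [add_mul]; exact add_mem h h'
  | smul c x _ h => rw [smul_mul_assoc]; exact Submodule.smul_mem _ _ h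

/-- Poincare duality for the real algebraic classes -/
theorem pd (hN : EQ.NumHom W Y) : Pd (Ar W Y) (Tre W Y) N where
  mul := Ar_mul hW hY
  comm := fun hx _ => hW.even_comm hY (Ar_gr hW hY hx) _
  top := fun x hx => hW.top_gr hY (Ar_gr hW hY hx) (by omega)
  dual := by
    intro i j x hij hx h
    refine hN i x ?_ fun l y hy => ?_
    · have h1 : Ar W Y i ≤ (Submodule.span ℂ {z | W.IsAlg Y i z}).restrictScalars ℝ :=
        Submodule.span_le.2 fun y hy => Submodule.subset_span hy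
      exact h1 hx
    · by_cases hl : l = j
      · subst hl
        have hy' : y ∈ Ar W Y l := Submodule.subset_span hy
        have h1 := Ar_mul hW hY hx hy'
        rw [hij] at h1
        show W.tr Y (x * y) = 0
        rw [tr_real hW hY h1, h y hy', Complex.ofReal_zero]
      · exact hW.tr_gr hY (hW.mul_gr hY (Ar_gr hW hY hx) (hW.alg_gr hY hy)) (by omega)
  fin := by
    intro j
    have h1 : Module.Finite ℂ (W.coh Y) := hW.finite hY
    have h2 : FiniteDimensional ℝ (W.coh Y) := FiniteDimensional.complexToReal (W.coh Y)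
    infer_instance

theorem rs : Rs (Ar W Y) (Tre W Y) N (W.alg Y) where
  span := fun _ => rfl
  smul := by
    intro q j x hx
    have e : ((q : ℝ) • x : W.coh Y) = ((q : ℚ) : ℂ) • x := by
      have e1 : ((q : ℝ) • x : W.coh Y) = (((q : ℝ) : ℂ)) • x := rfl
      rw [e1]
      norm_cast
    rw [e]
    exact CohomologyData.alg_smul q hx
  mul := fun hx hy => hW.mul_alg hY hx hy
  rat := by
    intro x hx
    obtain ⟨q, hq⟩ := hW.tr_alg hY hx
    refine ⟨q, ?_⟩
    rw [Tre_apply, hq]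
    simp

/-- **`Q1` along a path of classes with hard Lefschetz.** -/
theorem q1_of_path {η L : W.coh Y} (hη : W.IsAlg Y 1 η) (hL : W.IsAlg Y 1 L)
    (hl : ∀ t ∈ Set.Icc (0 : ℝ) 1,
      HardLefschetz W Y N (((1 - t : ℝ) : ℂ) • η + ((t : ℝ) : ℂ) • L))
    (hN : EQ.NumHom W Y) (hQ : EQ.Q1 W Y N η) : EQ.Q1 W Y N L := by
  have h := pd hW hY hN
  have hE := rs hW hY
  have hηA : η ∈ Ar W Y 1 := Submodule.subset_span hη
  have hLA : L ∈ Ar W Y 1 := Submodule.subset_span hL
  have hHL : ∀ t ∈ Set.Icc (0 : ℝ) 1, HL (Ar W Y) N (Pd.pt η L t) := by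
    intro t ht j n x hn hx h0
    have h1 := hl t ht (2 * j) x (by omega) (Ar_gr hW hY hx)
    rw [show N - 2 * j = n by omega] at h1
    exact h1 h0
  have hHL0 : HL (Ar W Y) N η := by
    have h1 := hHL 0 ⟨le_rfl, zero_le_one⟩
    rwa [Pd.pt, sub_zero, one_smul, zero_smul, add_zero] at h1
  have hre : ∀ {j : ℕ} {z : W.coh Y}, RatPos (K := ℂ) ((-1) ^ j * W.tr Y z) →
      0 < (-1) ^ j * Tre W Y z := by
    rintro j z ⟨q, hq, h1⟩
    have h2 : (((-1) ^ j * Tre W Y z : ℝ)) = ((-1) ^ j * W.tr Y z : ℂ).re := by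
      rw [Tre_apply]
      have h3 : ((-1 : ℂ) ^ j) = (((-1 : ℝ) ^ j : ℝ) : ℂ) := by push_cast; rfl
      rw [h3, Complex.re_ofReal_mul]
    rw [h2, h1]
    simpa using hq
  have hR : HR (Ar W Y) (Tre W Y) N η := by
    refine h.hr_real hE hη hHL0 fun j n x hn hx hp hx0 => ?_
    have h1 := hQ j x (by omega) hx (by
      rw [show N - 2 * j + 1 = n + 1 by omega]
      exact hp) hx0
    rw [show N - 2 * j = n by omega] at h1
    exact hre h1
  have hR1 := h.hr_of_path hηA hLA hHL hR
  intro j x hj hx hp hx0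
  have h1 := hR1 j (N - 2 * j) x (by omega) (Submodule.subset_span hx) hp hx0
  have h2 : W.cup (L ^ (N - 2 * j)) (W.cup x x) ∈ W.alg Y N := by
    have h3 := hW.mul_alg hY (hW.pow_alg hY hL (N - 2 * j)) (hW.mul_alg hY hx hx)
    rwa [show N - 2 * j + (j + j) = N by omega] at h3
  obtain ⟨q, hq⟩ := hW.tr_alg hY h2
  refine ⟨(-1) ^ j * q, ?_, ?_⟩
  · have h4 : Tre W Y (L ^ (N - 2 * j) * (x * x)) = q := by
      have h5 : W.tr Y (L ^ (N - 2 * j) * (x * x)) = q := hq
      rw [Tre_apply, h5]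
      simp
    rw [h4] at h1
    exact_mod_cast h1
  · rw [CohomologyData.Tr, hq]
    push_cast
    rfl

end Pool.Agent.Lib.MP_361a6f_ag.FL.AM
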