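import Pool.Agent.Lib.MP_361a6f_ag.FL.AM.HL
import Pool.Agent.Lib.MP_361a6f_ag.FL.PT0.Grp
import Pool.Agent.Lib.MP_361a6f_ag.FL.PT0.FinI

/-!
# Hard Lefschetz on the segment between two polarisations of a power
-/

open CategoryTheory AlgebraicGeometry MonoidalCategory CartesianMonoidalCategory

universe u v w w'

set_option autoImplicit false
set_option linter.unusedSectionVars false

namespace Pool.Agent.Lib.MP_361a6f_ag.FL.AM

open Pool.Agent.Lib.MP_361a6f_ag.H3 Pool.Agent.Lib.MP_361a6f_ag.SQ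
  Pool.Agent.Lib.MP_361a6f_ag.PP Pool.Agent.Lib.MP_361a6f_ag.FL.E

section seg

variable {k : Type u} [Field k] {W : CohomologyData.{u, 0, w} k ℂ} {𝒱 : VarietyClass k}
  (hW : IsWeilCohomology W 𝒱) {Y : Sch k} {N : ℕ} (hY : 𝒱.mem Y N) {η L : W.coh Y}

/-- the segment between `η` and `L` -/
noncomputable def seg (W : CohomologyData.{u, 0, w} k ℂ) {Y : Sch k} (η L : W.coh Y) (t : ℝ) :
    W.coh Y :=
  ((1 - t : ℝ) : ℂ) • η + ((t : ℝ) : ℂ) • L

include hW hY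

theorem seg_gr (hη : η ∈ W.alg Y 1) (hL : L ∈ W.alg Y 1) (t : ℝ) : seg W η L t ∈ W.gr Y 2 :=
  add_mem (Submodule.smul_mem _ _ (hW.alg_gr hY (j := 1) hη))
    (Submodule.smul_mem _ _ (hW.alg_gr hY (j := 1) hL))

theorem tr_seg (hη : η ∈ W.alg Y 1) (hL : L ∈ W.alg Y 1)
    (hpos : ∀ i, i ≤ N → RatPos (W.Tr (W.cup (L ^ i) (η ^ (N - i))))) {t : ℝ} (h0 : 0 ≤ t)
    (h1 : t ≤ 1) : ∃ r : ℝ, 0 < r ∧ W.tr Y (seg W η L t ^ N) = (r : ℂ) := by
  have hc : Commute (((t : ℝ) : ℂ) • L) (((1 - t : ℝ) : ℂ) • η) := by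
    have h : Commute L η := hW.alg_comm hY hL η
    exact (h.smul_left _).smul_right _
  choose! q hq hq' using hpos
  have e : W.tr Y (seg W η L t ^ N)
      = ((∑ i ∈ Finset.range (N + 1), t ^ i * (1 - t) ^ (N - i) * N.choose i * (q i : ℝ) : ℝ) : ℂ) := by
    rw [seg, add_comm, hc.add_pow, map_sum, Complex.ofReal_sum]
    refine Finset.sum_congr rfl fun i hi => ?_
    have hi' : i ≤ N := Nat.lt_succ_iff.1 (Finset.mem_range.1 hi)
    have h2 : W.tr Y (L ^ i * η ^ (N - i)) = (q i : ℂ) := hq' i hi'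
    have h3 : (((t : ℝ) : ℂ) • L) ^ i * (((1 - t : ℝ) : ℂ) • η) ^ (N - i) * (N.choose i : W.coh Y)
        = ((t : ℂ) ^ i * ((1 - t : ℝ) : ℂ) ^ (N - i) * (N.choose i : ℂ)) • (L ^ i * η ^ (N - i)) := by
      rw [_root_.smul_pow, _root_.smul_pow, smul_mul_smul_comm, smul_mul_assoc,
        ← Nat.cast_commute, ← nsmul_eq_mul, ← Nat.cast_smul_eq_nsmul ℂ, smul_smul]
    rw [h3, map_smul, h2, smul_eq_mul]
    push_cast
    ring
  refine ⟨_, ?_, e⟩
  have hnn : ∀ i ∈ Finset.range (N + 1),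
      0 ≤ t ^ i * (1 - t) ^ (N - i) * N.choose i * (q i : ℝ) := by
    intro i hi
    have hi' : i ≤ N := Nat.lt_succ_iff.1 (Finset.mem_range.1 hi)
    have hqi : (0 : ℝ) < q i := by exact_mod_cast hq i hi'
    have h1t : 0 ≤ 1 - t := by linarith
    positivity
  rcases eq_or_lt_of_le h0 with ht | ht
  · refine Finset.sum_pos' hnn ⟨0, Finset.mem_range.2 (by omega), ?_⟩
    have hqi : (0 : ℝ) < q 0 := by exact_mod_cast hq 0 (Nat.zero_le _)
    rw [← ht]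
    simpa using hqi
  · refine Finset.sum_pos' hnn ⟨N, Finset.mem_range.2 (by omega), ?_⟩
    have hqi : (0 : ℝ) < q N := by exact_mod_cast hq N le_rfl
    rw [Nat.sub_self, pow_zero, Nat.choose_self]
    positivity

theorem hl_seg (hA : AbelianType W Y N) (hU : UnitalLaw Y) (hη : PositiveDivisor W Y N η)
    (hL : L ∈ W.alg Y 1)
    (hpos : ∀ i, i ≤ N → RatPos (W.Tr (W.cup (L ^ i) (η ^ (N - i))))) {t : ℝ} (h0 : 0 ≤ t)
    (h1 : t ≤ 1) : HardLefschetz W Y N (seg W η L t) := by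
  obtain ⟨r, hr, e⟩ := tr_seg hW hY hη.1 hL hpos h0 h1
  refine hardLefschetz hW hY hA hU hη (seg_gr hW hY hη.1 hL t) ?_
  rw [e]
  exact_mod_cast hr.ne'

end seg

/-- the law of a power -/
theorem unital_pw {k : Type u} [Field k] {X : Sch k} (h : EQ.Group X) (P : Prd 1) :
    UnitalLaw (EQ.pw X P) := by
  obtain ⟨L⟩ := PT0.exists_dv h
  exact ⟨(L.pw P).m, (L.pw P).e, (L.pw P).unit', (L.pw P).unit⟩

end Pool.Agent.Lib.MP_361a6f_ag.FL.AM
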