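import Pool.Agent.Lib.MP_361a6f_ag.FL.AM.Lef

/-!
# The Hodge-Riemann relations for real classes, from those for rational classes
-/

set_option autoImplicit false
set_option linter.unusedSectionVars false

namespace Pool.Agent.Lib.MP_361a6f_ag.FL.AM

open Module

variable {R : Type*} [Ring R] [Algebra ℝ R]

/-- A rational structure. -/
structure Rs (A : ℕ → Submodule ℝ R) (T : R →ₗ[ℝ] ℝ) (N : ℕ) (E : ℕ → AddSubgroup R) : Prop where
  span : ∀ j, A j = Submodule.span ℝ (E j : Set R)
  smul : ∀ (q : ℚ) {j x}, x ∈ E j → (q : ℝ) • x ∈ E j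
  mul : ∀ {i j x y}, x ∈ E i → y ∈ E j → x * y ∈ E (i + j)
  rat : ∀ x ∈ E N, ∃ q : ℚ, T x = q

theorem exists_retR : ∃ φ : ℝ →ₗ[ℚ] ℚ, ∀ q : ℚ, φ (q : ℝ) = q := by
  obtain ⟨φ, hφ⟩ := LinearMap.exists_leftInverse_of_injective (Algebra.linearMap ℚ ℝ)
    (LinearMap.ker_eq_bot.2 (algebraMap ℚ ℝ).injective)
  refine ⟨φ, fun q => ?_⟩
  have h1 := LinearMap.congr_fun hφ q
  exact h1

/-- a form that is not negative on a line and zero at a point of it is zero there -/
theorem cross_zero {b c : ℝ} (h : ∀ s : ℝ, 0 ≤ 2 * s * b + s * s * c) : b = 0 := by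
  have hc : 0 ≤ c := by
    have h1 := h 1
    have h2 := h (-1)
    nlinarith
  by_contra hb
  have h1 := h (-b / (c + 1))
  have hc1 : (c + 1) ≠ 0 := by positivity
  have e : 2 * (-b / (c + 1)) * b + -b / (c + 1) * (-b / (c + 1)) * c
      = -(b ^ 2 * (c + 2)) / (c + 1) ^ 2 := by
    field_simp
    ring
  rw [e] at h1
  have h3 : 0 < b ^ 2 := by positivity
  have h2 : -(b ^ 2 * (c + 2)) / (c + 1) ^ 2 < 0 := by
    apply div_neg_of_neg_of_pos
    · nlinarith
    · positivity
  linarith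

namespace Pd

variable {A : ℕ → Submodule ℝ R} {T : R →ₗ[ℝ] ℝ} {N : ℕ} (h : Pd A T N)
  {E : ℕ → AddSubgroup R} (hE : Rs A T N E)

include h hE

theorem mem_A {j : ℕ} {x : R} (hx : x ∈ E j) : x ∈ A j := by
  rw [hE.span]
  exact Submodule.subset_span hx

theorem pow_E {w : R} (hw : w ∈ E 1) {j : ℕ} {x : R} (hx : x ∈ E j) (n : ℕ) :
    w ^ n * x ∈ E (n + j) := by
  induction n with
  | zero => rwa [pow_zero, one_mul, Nat.zero_add]
  | succ n ih =>
    rw [pow_succ', mul_assoc]
    have := hE.mul hw ih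
    rwa [show 1 + (n + j) = n + 1 + j by omega] at this

theorem exists_sum {j : ℕ} {x : R} (hx : x ∈ A j) :
    ∃ (r : ℕ) (c : Fin r → ℝ) (y : Fin r → R), (∀ i, y i ∈ E j) ∧ ∑ i, c i • y i = x := by
  rw [hE.span] at hx
  obtain ⟨r, c, g, h1⟩ := Submodule.mem_span_set'.1 hx
  exact ⟨r, c, fun i => (g i : R), fun i => (g i).2, h1⟩

theorem sum_E {j r : ℕ} (d : Fin r → ℚ) {y : Fin r → R} (hy : ∀ i, y i ∈ E j) :
    ∑ i, (d i : ℝ) • y i ∈ E j :=
  sum_mem fun i _ => hE.smul (d i) (hy i)

section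

variable {w : R} (hw : w ∈ E 1) (hL : HL A N w)

include hw hL

/-- the rational Lefschetz decomposition -/
theorem decompQ {j n : ℕ} (hn : 2 * (j + 1) + n = N) {x : R} (hx : x ∈ E (j + 1)) :
    ∃ y ∈ E j, w ^ (n + 1) * (x - w * y) = 0 := by
  have hwA := h.mem_A hE hw
  obtain ⟨y, hy, h1⟩ := h.decomp hwA hL hn (h.mem_A hE hx)
  obtain ⟨r, c, v, hv, rfl⟩ := h.exists_sum hE hy
  obtain ⟨φ, hφ⟩ := exists_retR
  have hv' : ∑ i, (φ (c i) : ℝ) • v i ∈ E j := h.sum_E hE (fun i => φ (c i)) hv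
  refine ⟨∑ i, (φ (c i) : ℝ) • v i, hv', ?_⟩
  have hmem : x - w * ∑ i, (φ (c i) : ℝ) • v i ∈ A (j + 1) := by
    refine sub_mem (h.mem_A hE hx) ?_
    have h2 := hE.mul hw hv'
    rw [Nat.add_comm] at h2
    exact h.mem_A hE h2
  refine h.dual (i := n + 1 + (j + 1)) (j := j) (by omega) (h.pow hwA hmem (n + 1)) ?_
  -- enough for rational `z`
  have key : ∀ z ∈ E j, T (w ^ (n + 1) * (x - w * ∑ i, (φ (c i) : ℝ) • v i) * z) = 0 := by
    intro z hz
    have hexp : ∀ d : Fin r → ℝ, T (w ^ (n + 1) * (x - w * ∑ i, d i • v i) * z)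
        = T (w ^ (n + 1) * x * z) - ∑ i, d i * T (w ^ (n + 2) * v i * z) := by
      intro d
      rw [mul_sub, sub_mul, map_sub, Finset.mul_sum, Finset.mul_sum, Finset.sum_mul, map_sum]
      congr 1
      refine Finset.sum_congr rfl fun i _ => ?_
      rw [mul_smul_comm, mul_smul_comm, smul_mul_assoc, map_smul, smul_eq_mul, ← mul_assoc,
        ← pow_succ]
    have hr : ∃ q : ℚ, T (w ^ (n + 1) * x * z) = q := by
      have h2 := hE.mul (h.pow_E hE hw hx (n + 1)) hz
      rw [show n + 1 + (j + 1) + j = N by omega] at h2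
      exact hE.rat _ h2
    have hri : ∀ i, ∃ q : ℚ, T (w ^ (n + 2) * v i * z) = q := by
      intro i
      have h2 := hE.mul (h.pow_E hE hw (hv i) (n + 2)) hz
      rw [show n + 2 + j + j = N by omega] at h2
      exact hE.rat _ h2
    obtain ⟨q, hq⟩ := hr
    choose qi hqi using hri
    have h3 := hexp c
    rw [h1, zero_mul, map_zero, hq] at h3
    rw [hexp, hq]
    have h4 : (q : ℝ) = ∑ i, c i * (qi i : ℝ) := by
      have h5 : ∑ i, c i * T (w ^ (n + 2) * v i * z) = ∑ i, c i * (qi i : ℝ) :=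
        Finset.sum_congr rfl fun i _ => by rw [hqi]
      rw [h5] at h3
      linarith
    have h6 : q = ∑ i, qi i * φ (c i) := by
      have h7 := congrArg φ h4
      rw [hφ, map_sum] at h7
      rw [h7]
      refine Finset.sum_congr rfl fun i _ => ?_
      have h8 : c i * (qi i : ℝ) = qi i • c i := by
        rw [Rat.smul_def, mul_comm]
      rw [h8, map_smul, smul_eq_mul]
    have h9 : ∑ i, (φ (c i) : ℝ) * T (w ^ (n + 2) * v i * z) = (q : ℝ) := by
      rw [h6]
      push_cast
      exact Finset.sum_congr rfl fun i _ => by rw [hqi, mul_comm]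
    rw [h9, sub_self]
  intro z hz
  obtain ⟨s, d, u, hu, rfl⟩ := h.exists_sum hE hz
  rw [Finset.mul_sum, map_sum]
  refine Finset.sum_eq_zero fun i _ => ?_
  rw [mul_smul_comm, map_smul, key _ (hu i), smul_zero]

/-- a real primitive class is a combination of rational primitive classes -/
theorem exists_prim {j n : ℕ} (hn : 2 * j + n = N) {x : R} (hx : x ∈ A j)
    (hp : w ^ (n + 1) * x = 0) : ∃ (r : ℕ) (c : Fin r → ℝ) (y : Fin r → R),
      (∀ i, y i ∈ E j ∧ w ^ (n + 1) * y i = 0) ∧ ∑ i, c i • y i = x := by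
  obtain ⟨r, c, y, hy, hx'⟩ := h.exists_sum hE hx
  rcases j with _ | j
  · refine ⟨r, c, y, fun i => ⟨hy i, ?_⟩, hx'⟩
    obtain rfl : n = N := by omega
    exact h.top _ (h.pow (h.mem_A hE hw) (h.mem_A hE (hy i)) (n + 1))
  · choose u hu hu' using fun i => h.decompQ hE hw hL hn (hy i)
    refine ⟨r, c, fun i => y i - w * u i, fun i => ⟨?_, hu' i⟩, ?_⟩
    · refine sub_mem (hy i) ?_
      have h2 := hE.mul hw (hu i)
      rwa [Nat.add_comm] at h2
    · have h1 : ∑ i, c i • (y i - w * u i) = x - w * ∑ i, c i • u i := by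
        rw [← hx', Finset.mul_sum, ← Finset.sum_sub_distrib]
        exact Finset.sum_congr rfl fun i _ => by rw [smul_sub, mul_smul_comm]
      have h2 : w ^ (n + 1) * ∑ i, c i • (y i - w * u i) = 0 := by
        rw [Finset.mul_sum]
        exact Finset.sum_eq_zero fun i _ => by rw [mul_smul_comm, hu', smul_zero]
      rw [h1, mul_sub, hp, zero_sub, neg_eq_zero, ← mul_assoc, ← pow_succ] at h2
      have h3 : ∑ i, c i • u i ∈ A j :=
        sum_mem fun i _ => Submodule.smul_mem _ _ (h.mem_A hE (hu i))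
      have h4 := hL j (n + 2) _ (by omega) h3 h2
      rw [h1, h4, mul_zero, sub_zero]

/-- **The Hodge-Riemann relations for real classes.** -/
theorem hr_real (hQ : ∀ j n x, 2 * j + n = N → x ∈ E j → w ^ (n + 1) * x = 0 → x ≠ 0 →
    0 < (-1) ^ j * T (w ^ n * (x * x))) : HR A T N w := by
  intro j n x hn hx hp hx0
  have hwA := h.mem_A hE hw
  -- semidefinite on the real primitive classes
  have hsemi : ∀ y ∈ A j, w ^ (n + 1) * y = 0 → 0 ≤ (-1) ^ j * T (w ^ n * (y * y)) := by
    intro y hy hyp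
    obtain ⟨r, c, v, hv, rfl⟩ := h.exists_prim hE hw hL hn hy hyp
    let f : (Fin r → ℝ) → ℝ := fun c => (-1) ^ j * T (w ^ n * ((∑ i, c i • v i) * ∑ i, c i • v i))
    have hf : Continuous f := by
      have e : f = fun c : Fin r → ℝ =>
          (-1) ^ j * ∑ i, ∑ l, c i * (c l * T (w ^ n * (v i * v l))) := by
        funext c
        show (-1) ^ j * T (w ^ n * ((∑ i, c i • v i) * ∑ i, c i • v i)) = _
        rw [Finset.sum_mul_sum, Finset.mul_sum, map_sum]
        congr 1
        refine Finset.sum_congr rfl fun i _ => ?_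
        rw [Finset.mul_sum, map_sum]
        refine Finset.sum_congr rfl fun l _ => ?_
        rw [smul_mul_assoc, mul_smul_comm, mul_smul_comm, mul_smul_comm, map_smul, map_smul,
          smul_eq_mul, smul_eq_mul]
      rw [e]
      fun_prop
    have hd : DenseRange (Pi.map (fun (_ : Fin r) (q : ℚ) => (q : ℝ))) :=
      DenseRange.piMap fun _ => Rat.denseRange_cast
    refine hd.induction_on (p := fun c => 0 ≤ f c) c (isClosed_le continuous_const hf) fun d => ?_
    have hm := h.sum_E hE d (fun i => (hv i).1)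
    by_cases h0 : ∑ i, (d i : ℝ) • v i = 0
    · show 0 ≤ (-1) ^ j * T (w ^ n * ((∑ i, (d i : ℝ) • v i) * ∑ i, (d i : ℝ) • v i))
      rw [h0, mul_zero, mul_zero, map_zero, mul_zero]
    · refine (hQ j n _ hn hm ?_ h0).le
      rw [Finset.mul_sum]
      exact Finset.sum_eq_zero fun i _ => by rw [mul_smul_comm, (hv i).2, smul_zero]
  refine lt_of_le_of_ne (hsemi x hx hp) fun hz => hx0 ?_
  -- `x` is orthogonal to the primitive classes
  have horth : ∀ y ∈ A j, w ^ (n + 1) * y = 0 → (-1) ^ j * T (w ^ n * (x * y)) = 0 := by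
    intro y hy hyp
    refine cross_zero (c := (-1) ^ j * T (w ^ n * (y * y))) fun s => ?_
    have h1 := hsemi (x + s • y) (add_mem hx (Submodule.smul_mem _ _ hy)) (by
      rw [mul_add, hp, mul_smul_comm, hyp, smul_zero, add_zero])
    have h2 : y * x = x * y := h.comm hy hx
    have e : (-1) ^ j * T (w ^ n * ((x + s • y) * (x + s • y)))
        = (-1) ^ j * T (w ^ n * (x * x)) + (2 * s * ((-1) ^ j * T (w ^ n * (x * y)))
          + s * s * ((-1) ^ j * T (w ^ n * (y * y)))) := by
      simp only [add_mul, mul_add, smul_mul_assoc, mul_smul_comm, map_add, map_smul, smul_eq_mul,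
        h2]
      ring
    rw [e, ← hz, zero_add] at h1
    exact h1
  have hall : ∀ y ∈ A j, T (w ^ n * x * y) = 0 := by
    intro y hy
    have h3 : (-1 : ℝ) ^ j * T (w ^ n * (x * y)) = 0 := by
      rcases j with _ | j
      · refine horth y hy ?_
        obtain rfl : n = N := by omega
        exact h.top _ (h.pow hwA hy (n + 1))
      · obtain ⟨u, hu, h1⟩ := h.decomp hwA hL hn hy
        have hwu : w * u ∈ A (j + 1) := by
          have h2 := h.mul hwA hu
          rwa [Nat.add_comm] at h2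
        have h2 := horth (y - w * u) (sub_mem hy hwu) h1
        have h4 : T (w ^ n * (x * (w * u))) = 0 := by
          have h5 : x * w = w * x := h.comm hx hwA
          have h6 : w ^ n * (x * (w * u)) = w ^ (n + 1) * x * u := by
            calc w ^ n * (x * (w * u)) = w ^ n * (x * w) * u := by simp only [mul_assoc]
              _ = _ := by
                rw [h5, pow_succ]
                simp only [mul_assoc]
          rw [h6, hp, zero_mul, map_zero]
        rw [mul_sub, mul_sub, map_sub, h4, sub_zero] at h2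
        exact h2
    rw [mul_assoc]
    exact (mul_eq_zero.1 h3).resolve_left (pow_ne_zero _ (by norm_num))
  have h7 : w ^ n * x = 0 :=
    h.dual (i := n + j) (j := j) (by omega) (h.pow hwA hx n) hall
  exact hL j n x hn hx h7

end

end Pd

end Pool.Agent.Lib.MP_361a6f_ag.FL.AM
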