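import Mathlib

/-!
# The signature is constant in a continuous family of nondegenerate symmetric forms
-/

set_option autoImplicit false

open Topology

namespace Pool.Agent.Lib.MP_361a6f_ag.FL.AM

/-- `B` is positive on a subspace of dimension `p` and negative on a subspace of dimension `m`. -/
def Sg {V : Type*} [AddCommGroup V] [Module ℝ V] (B : LinearMap.BilinForm ℝ V) (p m : ℕ) : Prop :=
  (∃ S : Submodule ℝ V, Module.finrank ℝ S = p ∧ ∀ x ∈ S, x ≠ 0 → 0 < B x x) ∧
    ∃ S : Submodule ℝ V, Module.finrank ℝ S = m ∧ ∀ x ∈ S, x ≠ 0 → B x x < 0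

section

variable {V : Type*} [AddCommGroup V] [Module ℝ V] [FiniteDimensional ℝ V]

omit [FiniteDimensional ℝ V] in
/-- expansion of a bilinear form -/
theorem expand {ι : Type*} [Fintype ι] (B : LinearMap.BilinForm ℝ V) (c d : ι → ℝ) (u : ι → V) :
    B (∑ i, c i • u i) (∑ j, d j • u j) = ∑ i, ∑ j, c i * (d j * B (u i) (u j)) := by
  have h1 : B (∑ i, c i • u i) = ∑ i, c i • B (u i) := by
    rw [map_sum]
    exact Finset.sum_congr rfl fun i _ => map_smul _ _ _
  rw [h1, LinearMap.sum_apply]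
  refine Finset.sum_congr rfl fun i _ => ?_
  rw [LinearMap.smul_apply, map_sum, smul_eq_mul, Finset.mul_sum]
  refine Finset.sum_congr rfl fun j _ => ?_
  rw [map_smul, smul_eq_mul]

/-- to be positive definite on a fixed subspace is an open condition -/
theorem open_pos (B : ℝ → LinearMap.BilinForm ℝ V) (hc : ∀ x y, Continuous fun t => B t x y)
    (S : Submodule ℝ V) {t₀ : ℝ} (h : ∀ x ∈ S, x ≠ 0 → 0 < B t₀ x x) :
    ∀ᶠ t in 𝓝 t₀, ∀ x ∈ S, x ≠ 0 → 0 < B t x x := by
  classical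
  let b : Module.Basis (Fin (Module.finrank ℝ S)) ℝ S := Module.finBasis ℝ S
  let vec : (Fin (Module.finrank ℝ S) → ℝ) → V := fun c => ((b.equivFun.symm c : S) : V)
  have hvec : ∀ c, vec c = ∑ i, c i • (b i : V) := by
    intro c
    show ((b.equivFun.symm c : S) : V) = _
    rw [Module.Basis.equivFun_symm_apply, Submodule.coe_sum]
    rfl
  have hexp : ∀ t c, B t (vec c) (vec c) = ∑ i, ∑ j, c i * (c j * B t (b i) (b j)) := by
    intro t c
    rw [hvec]
    exact expand _ _ _ _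
  have hcont : Continuous fun z : ℝ × (Fin (Module.finrank ℝ S) → ℝ) =>
      ∑ i, ∑ j, z.2 i * (z.2 j * B z.1 (b i) (b j)) := by
    refine continuous_finsetSum _ fun i _ => continuous_finsetSum _ fun j _ => ?_
    have h1 : Continuous fun z : ℝ × (Fin (Module.finrank ℝ S) → ℝ) => B z.1 (b i) (b j) :=
      (hc _ _).comp continuous_fst
    have h2 : ∀ i, Continuous fun z : ℝ × (Fin (Module.finrank ℝ S) → ℝ) => z.2 i :=
      fun i => (continuous_apply i).comp continuous_snd
    exact (h2 i).mul ((h2 j).mul h1)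
  have key : ∀ᶠ t in 𝓝 t₀, ∀ c ∈ Metric.sphere (0 : Fin (Module.finrank ℝ S) → ℝ) 1,
      0 < B t (vec c) (vec c) := by
    refine (isCompact_sphere _ _).eventually_forall_of_forall_eventually fun c hc1 => ?_
    have h0 : 0 < B t₀ (vec c) (vec c) := by
      refine h _ (b.equivFun.symm c : S).2 fun h2 => ?_
      have h3 : (b.equivFun.symm c : S) = 0 := by
        apply Subtype.ext
        exact h2
      have h4 : c = 0 := by
        have h5 := congrArg b.equivFun h3
        rwa [LinearEquiv.apply_symm_apply, map_zero] at h5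
      rw [h4, mem_sphere_zero_iff_norm, norm_zero] at hc1
      exact zero_ne_one hc1
    have h1 : ∀ᶠ z : ℝ × (Fin (Module.finrank ℝ S) → ℝ) in 𝓝 (t₀, c),
        0 < ∑ i, ∑ j, z.2 i * (z.2 j * B z.1 (b i) (b j)) := by
      refine hcont.continuousAt.eventually_const_lt ?_
      rw [hexp] at h0
      exact h0
    filter_upwards [h1] with z hz
    rw [hexp]
    exact hz
  filter_upwards [key] with t ht x hx hx0
  let c : Fin (Module.finrank ℝ S) → ℝ := b.equivFun ⟨x, hx⟩
  have hxc : vec c = x := by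
    show ((b.equivFun.symm (b.equivFun ⟨x, hx⟩) : S) : V) = x
    rw [LinearEquiv.symm_apply_apply]
  have hc0 : c ≠ 0 := fun h1 => hx0 (by
    rw [← hxc, h1]
    show ((b.equivFun.symm 0 : S) : V) = 0
    rw [map_zero]
    rfl)
  have hn : 0 < ‖c‖ := norm_pos_iff.2 hc0
  have h2 := ht (‖c‖⁻¹ • c) (by
    rw [mem_sphere_zero_iff_norm, norm_smul, norm_inv, norm_norm, inv_mul_cancel₀ hn.ne'])
  have h3 : vec (‖c‖⁻¹ • c) = ‖c‖⁻¹ • x := by
    rw [← hxc]
    show ((b.equivFun.symm (‖c‖⁻¹ • c) : S) : V) = ‖c‖⁻¹ • ((b.equivFun.symm c : S) : V)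
    rw [map_smul]
    rfl
  have h5 : B t (‖c‖⁻¹ • x) (‖c‖⁻¹ • x) = ‖c‖⁻¹ * (‖c‖⁻¹ * B t x x) := by
    have h6 : B t (‖c‖⁻¹ • x) = ‖c‖⁻¹ • B t x := map_smul _ _ _
    rw [h6, LinearMap.smul_apply, map_smul, smul_eq_mul, smul_eq_mul]
  rw [h3, h5] at h2
  have h4 : 0 < ‖c‖⁻¹ := inv_pos.2 hn
  exact (mul_pos_iff_of_pos_left h4).1 ((mul_pos_iff_of_pos_left h4).1 h2)

/-- `Sg` is an open condition -/
theorem open_sg (B : ℝ → LinearMap.BilinForm ℝ V) (hc : ∀ x y, Continuous fun t => B t x y)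
    {t₀ : ℝ} {p m : ℕ} (h : Sg (B t₀) p m) : ∀ᶠ t in 𝓝 t₀, Sg (B t) p m := by
  obtain ⟨⟨S, hS, hSp⟩, ⟨S', hS', hSm⟩⟩ := h
  have h1 := open_pos B hc S hSp
  have h2 := open_pos (fun t => -B t) (fun x y => by
    have e : (fun t => (-B t) x y) = fun t => -(B t x y) := by
      funext t
      rw [LinearMap.neg_apply, LinearMap.neg_apply]
    rw [e]
    exact (hc x y).neg) S' (t₀ := t₀) (fun x hx hx0 => by
      rw [LinearMap.neg_apply, LinearMap.neg_apply]
      exact neg_pos.2 (hSm x hx hx0))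
  filter_upwards [h1, h2] with t h1 h2
  refine ⟨⟨S, hS, h1⟩, ⟨S', hS', fun x hx hx0 => ?_⟩⟩
  have h3 := h2 x hx hx0
  rw [LinearMap.neg_apply, LinearMap.neg_apply] at h3
  exact neg_pos.1 h3

/-- a positive and a negative subspace are disjoint -/
theorem add_le {B : LinearMap.BilinForm ℝ V} {S S' : Submodule ℝ V}
    (h : ∀ x ∈ S, x ≠ 0 → 0 < B x x) (h' : ∀ x ∈ S', x ≠ 0 → B x x < 0) :
    Module.finrank ℝ S + Module.finrank ℝ S' ≤ Module.finrank ℝ V := by
  have h1 : S ⊓ S' = ⊥ := by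
    rw [eq_bot_iff]
    intro x hx
    rw [Submodule.mem_bot]
    by_contra h0
    exact lt_asymm (h x hx.1 h0) (h' x hx.2 h0)
  have h2 := Submodule.finrank_sup_add_finrank_inf_eq S S'
  rw [h1, finrank_bot, add_zero] at h2
  rw [← h2]
  exact Submodule.finrank_le _

theorem sg_unique {B : LinearMap.BilinForm ℝ V} {p m p' m' : ℕ} (h : Sg B p m) (h' : Sg B p' m')
    (hpm : p + m = Module.finrank ℝ V) (hpm' : p' + m' = Module.finrank ℝ V) :
    p = p' ∧ m = m' := by
  obtain ⟨⟨S1, h1, h1'⟩, ⟨S2, h2, h2'⟩⟩ := h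
  obtain ⟨⟨S3, h3, h3'⟩, ⟨S4, h4, h4'⟩⟩ := h'
  have e1 := add_le h1' h4'
  have e2 := add_le h3' h2'
  rw [h1, h4] at e1
  rw [h3, h2] at e2
  omega

/-- a nondegenerate symmetric form has a signature -/
theorem exists_sg {B : LinearMap.BilinForm ℝ V} (hs : ∀ x y, B x y = B y x)
    (hn : ∀ x, (∀ y, B x y = 0) → x = 0) :
    ∃ p m, p + m = Module.finrank ℝ V ∧ Sg B p m := by
  classical
  have hsym : LinearMap.IsSymm B := ⟨fun x y => hs x y⟩
  obtain ⟨v, hv⟩ := LinearMap.BilinForm.exists_orthogonal_basis (K := ℝ) (V := V) (B := B)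
    (hK := invertibleOfNonzero (two_ne_zero' ℝ)) hsym
  have hv0 : ∀ i j, i ≠ j → B (v i) (v j) = 0 := fun i j hij => hv hij
  have hvi : ∀ i, B (v i) (v i) ≠ 0 := by
    intro i h0
    apply v.ne_zero i
    refine hn _ fun y => ?_
    rw [← v.sum_repr y, map_sum]
    refine Finset.sum_eq_zero fun j _ => ?_
    rw [map_smul]
    by_cases h : i = j
    · rw [← h, h0, smul_zero]
    · rw [hv0 i j h, smul_zero]
  have hval : ∀ c : Fin (Module.finrank ℝ V) → ℝ, B (∑ i, c i • v i) (∑ i, c i • v i)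
      = ∑ i, c i * c i * B (v i) (v i) := by
    intro c
    rw [expand]
    refine Finset.sum_congr rfl fun i _ => ?_
    rw [Finset.sum_eq_single i]
    · rw [mul_assoc]
    · intro j _ hj
      rw [hv0 i j (Ne.symm hj), mul_zero, mul_zero]
    · intro h
      exact absurd (Finset.mem_univ i) h
  -- the span of a part of the basis
  have hspan : ∀ s : Finset (Fin (Module.finrank ℝ V)),
      Module.finrank ℝ (Submodule.span ℝ (v '' (s : Set (Fin (Module.finrank ℝ V))))) = s.card ∧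
      ∀ x ∈ Submodule.span ℝ (v '' (s : Set (Fin (Module.finrank ℝ V)))),
        x = ∑ i, v.repr x i • v i ∧ ∀ i, i ∉ s → v.repr x i = 0 := by
    intro s
    refine ⟨?_, fun x hx => ⟨(v.sum_repr x).symm, fun i hi => ?_⟩⟩
    · have h1 : LinearIndependent ℝ fun i : s => v i :=
        v.linearIndependent.comp _ Subtype.val_injective
      have h2 := finrank_span_eq_card h1
      rw [Fintype.card_coe] at h2
      have h3 : (v '' (s : Set (Fin (Module.finrank ℝ V)))) = Set.range fun i : s => v i := by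
        ext y
        constructor
        · rintro ⟨i, hi, rfl⟩
          exact ⟨⟨i, hi⟩, rfl⟩
        · rintro ⟨i, rfl⟩
          exact ⟨i, i.2, rfl⟩
      rw [h3, h2]
    · have h1 := v.mem_span_image.1 hx
      by_contra h2
      exact hi (h1 (Finsupp.mem_support_iff.2 h2))
  let P : Finset (Fin (Module.finrank ℝ V)) := Finset.univ.filter fun i => 0 < B (v i) (v i)
  let N : Finset (Fin (Module.finrank ℝ V)) := Finset.univ.filter fun i => ¬ 0 < B (v i) (v i)
  refine ⟨P.card, N.card, ?_, ⟨_, (hspan P).1, fun x hx hx0 => ?_⟩,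
    ⟨_, (hspan N).1, fun x hx hx0 => ?_⟩⟩
  · have h1 := Finset.card_filter_add_card_filter_not
      (s := (Finset.univ : Finset (Fin (Module.finrank ℝ V)))) (fun i => 0 < B (v i) (v i))
    rw [Finset.card_univ, Fintype.card_fin] at h1
    exact h1
  · obtain ⟨e, h0⟩ := (hspan P).2 x hx
    have h1 : B x x = ∑ i, v.repr x i * v.repr x i * B (v i) (v i) := by
      conv_lhs => rw [e]
      exact hval _
    rw [h1]
    obtain ⟨i, hi⟩ : ∃ i, v.repr x i ≠ 0 := by
      by_contra hcon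
      push Not at hcon
      apply hx0
      rw [e]
      exact Finset.sum_eq_zero fun i _ => by rw [hcon, zero_smul]
    refine Finset.sum_pos' (fun j _ => ?_) ⟨i, Finset.mem_univ _, ?_⟩
    · by_cases hj : j ∈ P
      · exact mul_nonneg (mul_self_nonneg _) (Finset.mem_filter.1 hj).2.le
      · rw [h0 j hj, zero_mul, zero_mul]
    · have hiP : i ∈ P := by
        by_contra h2
        exact hi (h0 i h2)
      exact mul_pos (mul_self_pos.2 hi) (Finset.mem_filter.1 hiP).2
  · obtain ⟨e, h0⟩ := (hspan N).2 x hx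
    have h1 : B x x = ∑ i, v.repr x i * v.repr x i * B (v i) (v i) := by
      conv_lhs => rw [e]
      exact hval _
    rw [h1, ← neg_pos, ← Finset.sum_neg_distrib]
    obtain ⟨i, hi⟩ : ∃ i, v.repr x i ≠ 0 := by
      by_contra hcon
      push Not at hcon
      apply hx0
      rw [e]
      exact Finset.sum_eq_zero fun i _ => by rw [hcon, zero_smul]
    refine Finset.sum_pos' (fun j _ => ?_) ⟨i, Finset.mem_univ _, ?_⟩
    · by_cases hj : j ∈ N
      · rw [neg_nonneg]
        exact mul_nonpos_of_nonneg_of_nonpos (mul_self_nonneg _)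
          (not_lt.1 (Finset.mem_filter.1 hj).2)
      · rw [h0 j hj, zero_mul, zero_mul, neg_zero]
    · have hiN : i ∈ N := by
        by_contra h2
        exact hi (h0 i h2)
      rw [neg_pos]
      exact mul_neg_of_pos_of_neg (mul_self_pos.2 hi)
        (lt_of_le_of_ne (not_lt.1 (Finset.mem_filter.1 hiN).2) (hvi i))

end

/-- **The signature is constant** in a continuous family of nondegenerate symmetric forms. -/
theorem sig_const {V : Type*} [AddCommGroup V] [Module ℝ V] [FiniteDimensional ℝ V]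
    (B : ℝ → LinearMap.BilinForm ℝ V) (hs : ∀ t x y, B t x y = B t y x)
    (hc : ∀ x y, Continuous fun t => B t x y)
    (hn : ∀ t ∈ Set.Icc (0 : ℝ) 1, ∀ x, (∀ y, B t x y = 0) → x = 0) {p m : ℕ}
    (hpm : p + m = Module.finrank ℝ V) (h0 : Sg (B 0) p m) : Sg (B 1) p m := by
  refine (isPreconnected_Icc.induction₂ (s := Set.Icc (0 : ℝ) 1)
    (fun s t => Sg (B s) p m ↔ Sg (B t) p m) (fun s hs1 => ?_)
    (fun a b c _ _ _ h1 h2 => h1.trans h2) (fun a b _ _ h1 => h1.symm)
    (Set.left_mem_Icc.2 zero_le_one) (Set.right_mem_Icc.2 zero_le_one)).1 h0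
  obtain ⟨p', m', hpm', h1⟩ := exists_sg (hs s) (hn s hs1)
  have h2 : ∀ᶠ t in 𝓝[Set.Icc (0 : ℝ) 1] s, Sg (B t) p' m' :=
    (open_sg B hc h1).filter_mono nhdsWithin_le_nhds
  filter_upwards [h2] with t h2
  constructor
  · intro h3
    obtain ⟨rfl, rfl⟩ := sg_unique h3 h1 hpm hpm'
    exact h2
  · intro h3
    obtain ⟨rfl, rfl⟩ := sg_unique h3 h2 hpm hpm'
    exact h1

end Pool.Agent.Lib.MP_361a6f_ag.FL.AM
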